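import Pool.Agent.Y109.SP.TorDef
import Pool.Agent.Helper386.D5V.Helper399_FF4
import Pool.Agent.W602.GT.Der
import Pool.Agent.Helper386.D5V.Helper386_FF_Div

/-!
# Torsors under elliptic curves: descent of the invariant vector field

Job SP-TORSOR-B of the project SP of helper742.
-/

set_option autoImplicit false
set_option linter.unusedSectionVars false

namespace Pool.Agent.Y109.SP

open FF Pool.Agent.W602.GT Pool.Agent.Y742.GG Pool.Agent.Y742.SP Pool.Agent.Y720.MZ Polynomial

/-- a derivation which kills the constants is linear over them -/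
noncomputable def up {Ω F : Type} [Field Ω] [Field F] [Algebra Ω F] (D : Derivation ℤ F F)
    (h : ∀ c : Ω, D (algebraMap Ω F c) = 0) : Derivation Ω F F :=
  Derivation.mk'
    { toFun := fun x => D x
      map_add' := fun x y => map_add D x y
      map_smul' := fun c x => by
        show D (c • x) = c • D x
        rw [Algebra.smul_def, D.leibniz, h, smul_zero, add_zero, smul_eq_mul, Algebra.smul_def] }
    (fun x y => D.leibniz x y)

lemma up_apply {Ω F : Type} [Field Ω] [Field F] [Algebra Ω F] (D : Derivation ℤ F F)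
    (h : ∀ c : Ω, D (algebraMap Ω F c) = 0) (x : F) : up D h x = D x := rfl

/-- change of the field of constants of a place -/
def chg {k F : Type} (k₁ : Type) [Field k] [Field k₁] [Field F] [Algebra k F] [Algebra k₁ F]
    (w : Place k F) (h : ∀ c : k₁, c ≠ 0 → w.ord (algebraMap k₁ F c) = 0) : Place k₁ F where
  ord := w.ord
  ord_zero := w.ord_zero
  ord_mul := w.ord_mul
  ord_add := w.ord_add
  ord_const := fun {c} hc => h c hc
  surj := w.surj

section

variable {Ω K : Type} [Field Ω] [Field K] [Algebra Ω K] {L : IntermediateField Ω K}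
  {K' : Type} [Field K'] [Algebra K K'] [DecidableEq K'] {a b c : L} {X Y : K'}

lemma trdeg_le (H : TD L a b c X Y) : Algebra.trdeg L K' ≤ 1 := by
  have hinj : Function.Injective (algebraMap L (Algebra.adjoin L ({X} : Set K'))) :=
    (algebraMap L (Algebra.adjoin L ({X} : Set K'))).injective
  have hcst : ∀ z : L, IsAlgebraic (Algebra.adjoin L ({X} : Set K')) (algebraMap L K' z) :=
    fun z => (isAlgebraic_algebraMap z).extendScalars hinj
  have hXa : IsAlgebraic (Algebra.adjoin L ({X} : Set K')) X :=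
    isAlgebraic_algebraMap (⟨X, Algebra.subset_adjoin rfl⟩ : Algebra.adjoin L ({X} : Set K'))
  have hYa : IsAlgebraic (Algebra.adjoin L ({X} : Set K')) Y := by
    apply IsAlgebraic.of_pow (n := 2) (by norm_num)
    rw [H.eqn]
    exact (((hXa.pow 3).add ((hcst a).mul (hXa.pow 2))).add ((hcst b).mul hXa)).add (hcst c)
  have halg : Algebra.IsAlgebraic (Algebra.adjoin L ({X} : Set K')) K' := by
    refine ⟨fun z => ?_⟩
    refine H.ind (p := fun z => IsAlgebraic (Algebra.adjoin L ({X} : Set K')) z) hXa hYa ?_ ?_ ?_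
      ?_ z
    · intro z hz
      exact hz.extendScalars hinj
    · intro x y hx hy
      exact hx.add hy
    · intro x y hx hy
      exact hx.mul hy
    · intro x hx
      exact hx.inv
  have h := Algebra.IsAlgebraic.trdeg_le_cardinalMk L ({X} : Set K')
  rwa [Cardinal.mk_singleton] at h

lemma exists_trans [FiniteDimensional K K'] (H : TD L a b c X Y) : ∃ t : K, Transcendental L t := by
  by_contra hcon
  push Not at hcon
  have h1 : Algebra.IsAlgebraic L K := ⟨fun z => by
    have := hcon z
    rwa [Transcendental, not_not] at this⟩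
  have h2 : Algebra.IsAlgebraic K K' := inferInstance
  have h3 : Algebra.IsAlgebraic L K' := Algebra.IsAlgebraic.trans L K K'
  exact H.trans (h3.isAlgebraic X)

lemma basis (H : TD L a b c X Y) {t : K} (ht : Transcendental L t) :
    IsTranscendenceBasis L (fun _ : Unit => t) := by
  have h1 : AlgebraicIndependent L (fun _ : Unit => t) := algebraicIndependent_unique_type_iff.2 ht
  refine h1.isTranscendenceBasis_of_trdeg_le_of_finite ?_
  rw [Cardinal.mk_unit]
  exact (trdeg_le_of_injective (IsScalarTower.toAlgHom L K K')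
    (algebraMap K K').injective).trans (trdeg_le H)

lemma isCurve [FiniteDimensional K K'] (H : TD L a b c X Y)
    (hS : ∃ S : Finset K, IntermediateField.adjoin Ω (S : Set K) = ⊤) : IsCurve L := by
  obtain ⟨t, ht⟩ := exists_trans H
  obtain ⟨S, hS⟩ := hS
  refine ⟨t, S, ht, fun z => ?_, ?_⟩
  · have h1 := (basis H ht).isAlgebraic_field
    have h2 : Set.range (fun _ : Unit => t) = {t} := Set.range_const
    rw [h2] at h1
    exact h1.isAlgebraic z
  · rw [eq_top_iff]
    intro z _
    have hz : z ∈ IntermediateField.adjoin Ω (S : Set K) := by rw [hS]; trivial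
    have h1 : IntermediateField.adjoin Ω (S : Set K) ≤
        (IntermediateField.adjoin L (S : Set K)).restrictScalars Ω :=
      IntermediateField.adjoin_le_iff.2 fun s hs => IntermediateField.subset_adjoin L _ hs
    exact h1 hz

lemma exists_E [CharZero Ω] [FiniteDimensional K K'] (H : TD L a b c X Y) :
    ∃ E : Derivation Ω K K, E ≠ 0 ∧ ∀ z ∈ L, E z = 0 := by
  obtain ⟨t, ht⟩ := exists_trans H
  have hL : CharZero L := charZero_of_injective_algebraMap (algebraMap Ω L).injective
  obtain ⟨D, hD⟩ := exists_der (fun _ : Unit => t) (basis H ht) (fun _ => 1)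
  refine ⟨D.restrictScalars Ω, fun h0 => ?_, fun y hy => ?_⟩
  · have h1 : (D.restrictScalars Ω) t = 1 := hD ()
    rw [h0] at h1
    simp at h1
  · have h1 : y = algebraMap L K ⟨y, hy⟩ := rfl
    change D y = 0
    rw [h1]
    exact D.map_algebraMap _

/-- derivations which preserve `L` preserve its algebraic closure -/
lemma der_algc [CharZero L] {E : K → K} {D : Derivation ℤ K' K'} (hE : ∀ z ∈ L, E z ∈ L)
    (hD : ∀ z, D (algebraMap K K' z) = algebraMap K K' (E z)) {z : K'} (hz : IsAlgebraic L z) :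
    IsAlgebraic L (D z) := by
  have key : ∀ p : L[X], ∃ q : L[X], D (aeval z p) = aeval z q + aeval z (derivative p) * D z := by
    intro p
    induction p using Polynomial.induction_on' with
    | add p q hp hq =>
      obtain ⟨p', hp'⟩ := hp
      obtain ⟨q', hq'⟩ := hq
      refine ⟨p' + q', ?_⟩
      rw [map_add, map_add, hp', hq', map_add, derivative_add, map_add]
      ring
    | monomial n r =>
      refine ⟨monomial n ⟨E r, hE r r.2⟩, ?_⟩
      have h1 : D (algebraMap L K' r) = algebraMap L K' ⟨E r, hE r r.2⟩ := hD r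
      rw [aeval_monomial, D.leibniz, D.leibniz_pow, h1, aeval_monomial, derivative_monomial,
        aeval_monomial, map_mul, map_natCast]
      simp only [smul_eq_mul, nsmul_eq_mul]
      ring
  obtain ⟨q, hq⟩ := key (minpoly L z)
  rw [minpoly.aeval, map_zero] at hq
  have h2 : aeval z (derivative (minpoly L z)) ≠ 0 :=
    (minpoly.irreducible hz.isIntegral).separable.aeval_derivative_ne_zero (minpoly.aeval L z)
  have h3 : D z = -(aeval z q / aeval z (derivative (minpoly L z))) := by
    field_simp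
    linear_combination -hq
  have h4 : ∀ p : L[X], IsAlgebraic L (aeval z p) := by
    intro p
    have hz' : z ∈ algebraicClosure L K' := mem_algebraicClosure_iff.2 hz
    have h5 := IntermediateField.aeval_coe (algebraicClosure L K') ⟨z, hz'⟩ p
    exact mem_algebraicClosure_iff.1 (h5 ▸ (aeval (⟨z, hz'⟩ : algebraicClosure L K') p).2)
  rw [h3, div_eq_mul_inv]
  exact ((h4 _).mul (h4 _).inv).neg

variable [CharZero Ω] [Algebra Ω K'] [IsScalarTower Ω K K']

theorem good (hA : STorA) (H : TD L a b c X Y) [FiniteDimensional K K'] {E₁ : Derivation Ω K K}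
    {D₁ : Derivation ℤ K' K'} (hE : ∀ z ∈ L, E₁ z = 0)
    (hD : ∀ z, D₁ (algebraMap K K' z) = algebraMap K K' (E₁ z)) (hX : D₁ X = Y)
    (P : Place Ω K) (hP : TrivOn P L) : GoodAt P L E₁ := by
  have hL : CharZero L := charZero_of_injective_algebraMap (algebraMap Ω L).injective
  have hK : CharZero K := charZero_of_injective_algebraMap (algebraMap Ω K).injective
  have hK' : CharZero K' := charZero_of_injective_algebraMap (algebraMap K K').injective
  have hst : IsScalarTower Ω L K' := IsScalarTower.of_algebraMap_eq fun x => by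
    rw [IsScalarTower.algebraMap_apply Ω K K' x]
    rfl
  let B : IntermediateField Ω K' := (algebraicClosure L K').restrictScalars Ω
  have hB : ∀ z : K', z ∈ B ↔ IsAlgebraic L z := fun z => mem_algebraicClosure_iff
  have hmem : ∀ z : L, algebraMap L K' z ∈ B := fun z => (hB _).2 (isAlgebraic_algebraMap z)
  -- the derivation over `Ω`
  have hc1 : ∀ z : Ω, D₁ (algebraMap Ω K' z) = 0 := by
    intro z
    rw [IsScalarTower.algebraMap_apply Ω K K', hD, E₁.map_algebraMap, map_zero]
  -- the place above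
  let w0 : Place L K := chg L P fun z hz => hP z z.2 (by simpa using hz)
  obtain ⟨S, T, -, hS, hsum⟩ := exists_places_over (K' := K') w0
  have hne : S.Nonempty := by
    rw [Finset.nonempty_iff_ne_empty]
    rintro rfl
    rw [Finset.sum_empty] at hsum
    have := Module.finrank_pos (R := K) (M := K')
    omega
  obtain ⟨w, hw⟩ := hne
  obtain ⟨e, hov, -⟩ := hS w hw
  let P' : Place Ω K' := chg Ω w fun z hz => by
    rw [IsScalarTower.algebraMap_apply Ω L K']
    exact w.ord_const (by simpa using hz)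
  have hP' : TrivOn P' B := fun z hz hz0 =>
    w.ord_eq_zero_of_isAlgebraic hz0 ((hB z).1 hz)
  have hreg : ∀ f : K, P'.Reg (algebraMap K K' f) ↔ P.Reg f := fun f => hov.reg
  have hord : ∀ f : K, P'.ord (algebraMap K K' f) = e * P.ord f := hov.2
  -- the data over `B`
  have hdsc : dsc (⟨algebraMap L K' a, hmem a⟩ : B) ⟨algebraMap L K' b, hmem b⟩
      ⟨algebraMap L K' c, hmem c⟩ ≠ 0 := by
    intro h0
    have h1 := congrArg (fun z : B => (z : K')) h0
    have h2 : algebraMap L K' (dsc a b c) = 0 := by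
      rw [← h1.trans (by simp : ((0 : B) : K') = 0)]
      simp only [dsc, map_sub, map_add, map_mul, map_pow, map_ofNat]
      rfl
    rw [map_eq_zero] at h2
    exact H.disc h2
  have htr : Transcendental B X := by
    intro hXB
    have h1 : Algebra.IsAlgebraic L (algebraicClosure L K') := inferInstance
    have h2 : IsAlgebraic (algebraicClosure L K') X := hXB
    exact H.trans (h2.restrictScalars L)
  have hgen : IntermediateField.adjoin B {X, Y} = ⊤ := by
    rw [eq_top_iff]
    intro z _
    refine H.ind (p := fun z => z ∈ IntermediateField.adjoin B {X, Y})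
      (IntermediateField.subset_adjoin B _ (by simp))
      (IntermediateField.subset_adjoin B _ (by simp)) ?_ ?_ ?_ ?_ z
    · intro y hy
      exact (IntermediateField.adjoin B {X, Y}).algebraMap_mem (⟨y, (hB y).2 hy⟩ : B)
    · intro x y hx hy
      exact add_mem hx hy
    · intro x y hx hy
      exact mul_mem hx hy
    · intro x hx
      exact inv_mem hx
  have hkB : ∀ z ∈ B, up D₁ hc1 z = 0 := by
    intro z hz
    refine der_alg (F := L) D₁ (fun y => ?_) ((hB z).1 hz)
    have : algebraMap L K' y = algebraMap K K' y := rfl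
    rw [this, hD, hE _ y.2, map_zero]
  obtain ⟨⟨hreg1, hgood⟩, π₀, hπ1, hπ2, hπ3⟩ := hA Ω K' B ⟨algebraMap L K' a, hmem a⟩
    ⟨algebraMap L K' b, hmem b⟩ ⟨algebraMap L K' c, hmem c⟩ X Y (up D₁ hc1) P' hdsc H.eqn htr hgen
    hkB hX hP'
  have hDE : ∀ f : K, up D₁ hc1 (algebraMap K K' f) = algebraMap K K' (E₁ f) := hD
  have hDer : DerReg P E₁ := by
    intro f hf
    rw [← hreg, ← hDE]
    exact hreg1 _ ((hreg f).2 hf)
  refine ⟨hDer, fun E hEL => ?_⟩
  -- the uniformizer
  obtain ⟨π, hπ0, hπ⟩ := P.surj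
  have hπ' : algebraMap K K' π ≠ 0 := by simpa using hπ0
  have hπ₀ : π₀ ≠ 0 := by
    rintro rfl
    rw [P'.ord_zero] at hπ1
    exact zero_ne_one hπ1
  have hunit : E₁ π ≠ 0 ∧ P.ord (E₁ π) = 0 ∧ e = 1 := by
    obtain ⟨u, hu⟩ : ∃ u, u = algebraMap K K' π / π₀ ^ e := ⟨_, rfl⟩
    have hu0 : u ≠ 0 := by
      rw [hu]
      exact div_ne_zero hπ' (pow_ne_zero _ hπ₀)
    have hu1 : P'.ord u = 0 := by
      rw [hu, P'.ord_div hπ' (pow_ne_zero _ hπ₀), P'.ord_pow, hord, hπ, hπ1]
      ring
    have hu2 : algebraMap K K' π = u * π₀ ^ e := by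
      rw [hu, div_mul_cancel₀ _ (pow_ne_zero _ hπ₀)]
    obtain ⟨m, hm⟩ : ∃ m, e = m + 1 := ⟨e - 1, by have := hov.1; omega⟩
    have h1 : up D₁ hc1 (algebraMap K K' π) =
        ((e : K') * u * up D₁ hc1 π₀) * π₀ ^ m + (up D₁ hc1 u * π₀) * π₀ ^ m := by
      rw [hu2, Derivation.leibniz, Derivation.leibniz_pow, hm]
      simp only [smul_eq_mul, nsmul_eq_mul, Nat.add_sub_cancel]
      push_cast
      ring
    have he0 : (e : K') ≠ 0 := by
      exact_mod_cast hov.1.ne'
    have he1 : P'.ord (e : K') = 0 := by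
      have h2 := P'.ord_const (c := (e : Ω)) (by exact_mod_cast hov.1.ne')
      rwa [map_natCast] at h2
    have h2 : (e : K') * u * up D₁ hc1 π₀ ≠ 0 := mul_ne_zero (mul_ne_zero he0 hu0) hπ2
    have h3 : P'.ord ((e : K') * u * up D₁ hc1 π₀) = 0 := by
      rw [P'.ord_mul (mul_ne_zero he0 hu0) hπ2, P'.ord_mul he0 hu0, he1, hu1, hπ3]
      rfl
    have h4 : (e : K') * u * up D₁ hc1 π₀ + up D₁ hc1 u * π₀ ≠ 0 ∧
        P'.ord ((e : K') * u * up D₁ hc1 π₀ + up D₁ hc1 u * π₀) = 0 := by
      by_cases h5 : up D₁ hc1 u = 0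
      · rw [h5, zero_mul, add_zero]
        exact ⟨h2, h3⟩
      · have h6 : up D₁ hc1 u * π₀ ≠ 0 := mul_ne_zero h5 hπ₀
        have h7 := hreg1 u (Or.inr hu1.ge)
        have h8 := (P'.reg_iff h5).1 h7
        have h9 := P'.ord_add_eq h2 h6 (by rw [h3, P'.ord_mul h5 hπ₀, hπ1]; omega)
        exact ⟨h9.1, h9.2.trans h3⟩
    rw [← add_mul] at h1
    have h5 : algebraMap K K' (E₁ π) ≠ 0 ∧ P'.ord (algebraMap K K' (E₁ π)) = m := by
      rw [← hDE, h1]
      refine ⟨mul_ne_zero h4.1 (pow_ne_zero _ hπ₀), ?_⟩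
      rw [P'.ord_mul h4.1 (pow_ne_zero _ hπ₀), h4.2, P'.ord_pow, hπ1]
      ring
    have h6 : E₁ π ≠ 0 := by
      intro h0
      apply h5.1
      rw [h0, map_zero]
    have h7 := h5.2
    rw [hord] at h7
    have h8 : (e : ℤ) ∣ m := ⟨_, h7.symm⟩
    have h9 : e ∣ m := by exact_mod_cast h8
    have h10 : m = 0 := by
      rcases Nat.eq_zero_or_pos m with h | h
      · exact h
      · have := Nat.le_of_dvd h h9
        omega
    refine ⟨h6, ?_, by omega⟩
    rw [h10, Nat.cast_zero] at h7
    rcases mul_eq_zero.1 h7 with h11 | h11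
    · have : e = 0 := by exact_mod_cast h11
      omega
    · exact h11
  obtain ⟨hu1, hu2, hu3⟩ := hunit
  -- the second derivation
  obtain ⟨E2, hE2⟩ := ext_der (K' := K') (mkDer (fun z => E z) (by intro x y; simp)
    (by intro x y; simp))
  have hE2' : ∀ z, E2 (algebraMap K K' z) = algebraMap K K' (E z) := hE2
  have hc2 : ∀ z : Ω, E2 (algebraMap Ω K' z) = 0 := by
    intro z
    rw [IsScalarTower.algebraMap_apply Ω K K', hE2', E.map_algebraMap, map_zero]
  obtain ⟨g', hg'⟩ := hgood (up E2 hc2) (fun z hz => (hB _).2 (der_algc hEL hE2' ((hB z).1 hz)))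
  have hEE : ∀ f : K, up E2 hc2 (algebraMap K K' f) = algebraMap K K' (E f) := hE2'
  have hu1' : algebraMap K K' (E₁ π) ≠ 0 := by simpa using hu1
  have hu2' : P'.ord (algebraMap K K' (E₁ π)) = 0 := by rw [hord, hu2, mul_zero]
  have hπr : P'.Reg (algebraMap K K' π) := (hreg π).2 (Or.inr (by omega))
  have hdiff : P'.Reg (g' - algebraMap K K' (-(E π / E₁ π))) := by
    have h1 := hg' _ hπr
    rw [Derivation.add_apply, Derivation.smul_apply, hEE, hDE, smul_eq_mul] at h1
    have h2 : g' - algebraMap K K' (-(E π / E₁ π)) =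
        (algebraMap K K' (E π) + g' * algebraMap K K' (E₁ π)) * (algebraMap K K' (E₁ π))⁻¹ := by
      rw [map_neg, map_div₀]
      field_simp
      ring
    rw [h2]
    exact P'.reg_mul h1 (Or.inr (by rw [P'.ord_inv, hu2']; norm_num))
  refine ⟨-(E π / E₁ π), fun f hf => ?_⟩
  rw [← hreg]
  have h1 := hg' _ ((hreg f).2 hf)
  have h2 := P'.reg_mul hdiff (hreg1 _ ((hreg f).2 hf))
  have h3 := P'.reg_add h1 (P'.reg_neg h2)
  have h4 : algebraMap K K' ((E + (-(E π / E₁ π)) • E₁) f) =
      (up E2 hc2 + g' • up D₁ hc1) (algebraMap K K' f) +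
        -((g' - algebraMap K K' (-(E π / E₁ π))) * up D₁ hc1 (algebraMap K K' f)) := by
    rw [Derivation.add_apply, Derivation.smul_apply, Derivation.add_apply, Derivation.smul_apply,
      hEE, hDE, smul_eq_mul, smul_eq_mul, map_add, map_mul]
    ring
  rw [h4]
  exact h3

end

/-- **Torsors under elliptic curves.** -/
theorem sTorsor (hA : STorA) : STorsor := by
  intro Ω K _ _ _ _ L hL hS
  obtain ⟨K', _, _, _, hfin, hgal, a, b, c, X, Y, H⟩ := hL
  refine ⟨isCurve H hS, ?_⟩
  have hK : CharZero K := charZero_of_injective_algebraMap (algebraMap Ω K).injective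
  obtain ⟨E₀, hE0, hE0L⟩ := exists_E H
  obtain ⟨E₁, D₁, h1, h2, h3, h4⟩ := H.norm hE0 hE0L
  refine ⟨E₁, fun h0 => ?_, h1, fun P hP => ?_⟩
  · obtain ⟨z, hz⟩ := h4 E₀ hE0L
    rw [h0, smul_zero] at hz
    exact hE0 hz
  · let _ : Algebra Ω K' := ((algebraMap K K').comp (algebraMap Ω K)).toAlgebra
    have hst : IsScalarTower Ω K K' := IsScalarTower.of_algebraMap_eq fun _ => rfl
    exact good hA H h1 h2 h3 P hP

end Pool.Agent.Y109.SP
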