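import Pool.Agent.Y742.SP.Stm

/-!
# The statement of job SP-TORSOR-A, used by SP-TORSOR-B
-/

set_option autoImplicit false

namespace Pool.Agent.Y109.SP

open FF Pool.Agent.W602.GT Pool.Agent.Y742.GG Pool.Agent.Y742.SP Pool.Agent.Y720.MZ

/-- The invariant derivation of an elliptic curve over the field `B`, at the places of its
function field `K'` which are trivial on `B`. -/
def STorA : Prop := ∀ (Ω K' : Type) [Field Ω] [CharZero Ω] [Field K'] [Algebra Ω K']
    (B : IntermediateField Ω K') (a b c : B) (X Y : K') (D₁ : Derivation Ω K' K')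
    (P : Place Ω K'), dsc a b c ≠ 0 →
    Y ^ 2 = X ^ 3 + (a : K') * X ^ 2 + (b : K') * X + (c : K') → Transcendental B X →
    IntermediateField.adjoin B {X, Y} = ⊤ → (∀ z ∈ B, D₁ z = 0) → D₁ X = Y → TrivOn P B →
    GoodAt P B D₁ ∧ ∃ π₀ : K', P.ord π₀ = 1 ∧ D₁ π₀ ≠ 0 ∧ P.ord (D₁ π₀) = 0

end Pool.Agent.Y109.SP
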